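import Pool.Agent.Helper68.QC.St1

/-!
# PART M, module LEN: the length-area inequality on circles
-/

set_option autoImplicit false

open MeasureTheory Set Filter Topology Complex
open scoped ContDiff ComplexConjugate ENNReal

namespace Pool.Agent.Helper95.QC

open Pool.Agent.Helper68.QC

/-- Integration over an annulus in polar coordinates. -/
private lemma len_polar (F : ℂ → ℝ) (hF : Continuous F) (c : ℂ) (r ρ : ℝ) (hr : 0 < r)
    (hrρ : r < ρ) :
    ∫ z in {z : ℂ | r < ‖z - c‖ ∧ ‖z - c‖ < ρ}, F z =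
      ∫ s in r..ρ, ∫ θ in (-Real.pi)..Real.pi, s * F (circleMap c s θ) := by
  have hA : MeasurableSet {z : ℂ | r < ‖z - c‖ ∧ ‖z - c‖ < ρ} := by
    apply IsOpen.measurableSet
    have h1 : Continuous fun z : ℂ => ‖z - c‖ := (continuous_id.sub continuous_const).norm
    exact (isOpen_lt continuous_const h1).inter (isOpen_lt h1 continuous_const)
  have hcm : Continuous fun p : ℝ × ℝ => circleMap c p.1 p.2 := by
    unfold circleMap
    fun_prop
  have hG : Continuous fun p : ℝ × ℝ => p.1 * F (circleMap c p.1 p.2) :=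
    continuous_fst.mul (hF.comp hcm)
  rw [← integral_indicator hA, ← integral_add_right_eq_self _ c,
    ← Complex.integral_comp_polarCoord_symm]
  have e1 : ∀ p ∈ polarCoord.target, p.1 • ({z : ℂ | r < ‖z - c‖ ∧ ‖z - c‖ < ρ}.indicator F
      (Complex.polarCoord.symm p + c)) = (Ioo r ρ ×ˢ Ioo (-Real.pi) Real.pi).indicator
        (fun p : ℝ × ℝ => p.1 * F (circleMap c p.1 p.2)) p := by
    intro p hp
    rw [polarCoord_target] at hp
    obtain ⟨hp1, hp2⟩ := hp
    simp only [mem_Ioi] at hp1
    have e2 : Complex.polarCoord.symm p + c = circleMap c p.1 p.2 := by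
      rw [Complex.polarCoord_symm_apply, circleMap, Complex.exp_mul_I]
      push_cast
      ring
    have e3 : ‖circleMap c p.1 p.2 - c‖ = p.1 := by
      rw [circleMap_sub_center, norm_circleMap_zero, abs_of_pos hp1]
    rw [e2]
    by_cases h : p.1 ∈ Ioo r ρ
    · rw [indicator_of_mem, indicator_of_mem, smul_eq_mul]
      · exact ⟨h, hp2⟩
      · change r < ‖circleMap c p.1 p.2 - c‖ ∧ ‖circleMap c p.1 p.2 - c‖ < ρ
        rw [e3]
        exact h
    · rw [indicator_of_notMem, indicator_of_notMem, smul_zero]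
      · exact fun h' => h h'.1
      · intro h'
        change r < ‖circleMap c p.1 p.2 - c‖ ∧ ‖circleMap c p.1 p.2 - c‖ < ρ at h'
        rw [e3] at h'
        exact h h'
  rw [setIntegral_congr_fun polarCoord.open_target.measurableSet e1,
    setIntegral_indicator (measurableSet_Ioo.prod measurableSet_Ioo)]
  have e4 : polarCoord.target ∩ (Ioo r ρ ×ˢ Ioo (-Real.pi) Real.pi) =
      Ioo r ρ ×ˢ Ioo (-Real.pi) Real.pi := by
    apply inter_eq_right.2
    rw [polarCoord_target]
    exact prod_mono (fun x hx => hr.trans hx.1) subset_rfl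
  rw [e4, Measure.volume_eq_prod, setIntegral_prod, intervalIntegral.integral_of_le hrρ.le,
    integral_Ioc_eq_integral_Ioo]
  · refine integral_congr_ae (ae_of_all _ fun s => ?_)
    simp only
    rw [intervalIntegral.integral_of_le (by linarith [Real.pi_pos]), integral_Ioc_eq_integral_Ioo]
  · have h1 : IntegrableOn (fun p : ℝ × ℝ => p.1 * F (circleMap c p.1 p.2))
        (Icc r ρ ×ˢ Icc (-Real.pi) Real.pi) (volume.prod volume) :=
      hG.continuousOn.integrableOn_compact (isCompact_Icc.prod isCompact_Icc)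
    exact h1.mono_set (prod_mono Ioo_subset_Icc_self Ioo_subset_Icc_self)

/-- Cauchy-Schwarz on `[-π, π]`. -/
private lemma len_cs (u : ℝ → ℝ) (hu : Continuous u) :
    (∫ θ in (-Real.pi)..Real.pi, u θ) ^ 2 ≤
      2 * Real.pi * ∫ θ in (-Real.pi)..Real.pi, u θ ^ 2 := by
  have hpi := Real.pi_pos
  set I : ℝ := ∫ θ in (-Real.pi)..Real.pi, u θ with hI
  set m : ℝ := I / (2 * Real.pi) with hm
  have h0 : 0 ≤ ∫ θ in (-Real.pi)..Real.pi, (u θ - m) ^ 2 :=
    intervalIntegral.integral_nonneg (by linarith) fun θ _ => sq_nonneg _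
  have e1 : ∫ θ in (-Real.pi)..Real.pi, (u θ - m) ^ 2 =
      ∫ θ in (-Real.pi)..Real.pi, ((u θ ^ 2 - 2 * m * u θ) + m ^ 2) := by
    congr 1
    ext θ
    ring
  have i1 : IntervalIntegrable (fun θ => u θ ^ 2) volume (-Real.pi) Real.pi :=
    (hu.pow 2).intervalIntegrable _ _
  have i2 : IntervalIntegrable (fun θ => 2 * m * u θ) volume (-Real.pi) Real.pi :=
    (continuous_const.mul hu).intervalIntegrable _ _
  rw [e1, intervalIntegral.integral_add (i1.sub i2) (by simp), intervalIntegral.integral_sub i1 i2,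
    intervalIntegral.integral_const_mul, intervalIntegral.integral_const, smul_eq_mul, ← hI] at h0
  have e2 : I = 2 * Real.pi * m := by
    rw [hm]
    field_simp
  have e3 : Real.pi - -Real.pi = 2 * Real.pi := by ring
  rw [e3, e2] at h0
  rw [e2]
  nlinarith

private lemma len_circle (g : ℂ → ℂ) (hg : ContDiff ℝ 1 g) (c : ℂ) (s : ℝ) (hs : 0 < s)
    (p q : ℂ) (hp : p ∈ Metric.sphere c s) (hq : q ∈ Metric.sphere c s) :
    ‖g p - g q‖ ^ 2 ≤ 2 * Real.pi * s *
      ∫ θ in (-Real.pi)..Real.pi, s * ‖fderiv ℝ g (circleMap c s θ)‖ ^ 2 := by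
  have hpi := Real.pi_pos
  have hpar : ∀ x ∈ Metric.sphere c s, ∃ α ∈ Icc (-Real.pi) Real.pi, x = circleMap c s α := by
    intro x hx
    refine ⟨arg (x - c), ⟨(Complex.neg_pi_lt_arg _).le, Complex.arg_le_pi _⟩, ?_⟩
    have h1 := Complex.norm_mul_exp_arg_mul_I (x - c)
    rw [mem_sphere_iff_norm] at hx
    rw [hx] at h1
    rw [circleMap, h1]
    ring
  obtain ⟨α, hα, rfl⟩ := hpar p hp
  obtain ⟨β, hβ, rfl⟩ := hpar q hq
  have hcf : Continuous (fderiv ℝ g) := hg.continuous_fderiv (by simp)
  have hcc : Continuous fun θ => fderiv ℝ g (circleMap c s θ) :=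
    hcf.comp (continuous_circleMap c s)
  set u : ℝ → ℝ := fun θ => ‖fderiv ℝ g (circleMap c s θ)‖ with hu
  have huc : Continuous u := hcc.norm
  have hd : ∀ θ : ℝ, HasDerivAt (fun θ => g (circleMap c s θ))
      (fderiv ℝ g (circleMap c s θ) (circleMap 0 s θ * I)) θ := by
    intro θ
    have h1 : HasFDerivAt g (fderiv ℝ g (circleMap c s θ)) (circleMap c s θ) :=
      ((hg.differentiable (by simp)) _).hasFDerivAt
    exact h1.comp_hasDerivAt θ (hasDerivAt_circleMap c s θ)
  have hd2 : Continuous fun θ => fderiv ℝ g (circleMap c s θ) (circleMap 0 s θ * I) :=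
    hcc.clm_apply ((continuous_circleMap 0 s).mul continuous_const)
  have e1 : g (circleMap c s α) - g (circleMap c s β) =
      ∫ θ in β..α, fderiv ℝ g (circleMap c s θ) (circleMap 0 s θ * I) :=
    (intervalIntegral.integral_eq_sub_of_hasDerivAt (fun θ _ => hd θ)
      (hd2.intervalIntegrable _ _)).symm
  have h2 : ‖g (circleMap c s α) - g (circleMap c s β)‖ ≤
      ∫ θ in (-Real.pi)..Real.pi, s * u θ := by
    rw [e1]
    refine intervalIntegral.norm_integral_le_abs_integral_norm.trans ?_
    have h3 : |∫ θ in β..α, ‖fderiv ℝ g (circleMap c s θ) (circleMap 0 s θ * I)‖| ≤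
        |∫ θ in (-Real.pi)..Real.pi,
          ‖fderiv ℝ g (circleMap c s θ) (circleMap 0 s θ * I)‖| := by
      apply intervalIntegral.abs_integral_mono_interval
      · rw [uIoc_of_le (by linarith : -Real.pi ≤ Real.pi)]
        intro t ht
        rw [uIoc, mem_Ioc] at ht
        constructor
        · exact lt_of_le_of_lt (le_min hβ.1 hα.1) ht.1
        · exact ht.2.trans (max_le hβ.2 hα.2)
      · exact Filter.Eventually.of_forall fun t => norm_nonneg _
      · exact hd2.norm.intervalIntegrable _ _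
    refine h3.trans ?_
    rw [abs_of_nonneg (intervalIntegral.integral_nonneg (by linarith) fun t _ => norm_nonneg _)]
    apply intervalIntegral.integral_mono_on (by linarith) (hd2.norm.intervalIntegrable _ _)
      ((continuous_const.mul huc).intervalIntegrable _ _)
    intro θ _
    refine (ContinuousLinearMap.le_opNorm _ _).trans (le_of_eq ?_)
    rw [norm_mul, norm_circleMap_zero, abs_of_pos hs, Complex.norm_I, mul_one, mul_comm]
    rfl
  rw [intervalIntegral.integral_const_mul] at h2
  have h4 := pow_le_pow_left₀ (norm_nonneg _) h2 2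
  refine h4.trans ?_
  rw [mul_pow, intervalIntegral.integral_const_mul]
  have h5 := len_cs u huc
  have h6 := mul_le_mul_of_nonneg_left h5 (sq_nonneg s)
  refine h6.trans (le_of_eq ?_)
  ring

theorem pLEN : Pool.Agent.Helper68.QC.StLEN := by
  intro g hg c r ρ hr hrρ
  by_contra hcon
  push Not at hcon
  have hpi := Real.pi_pos
  have hρ : 0 < ρ := hr.trans hrρ
  have hL : 0 < Real.log (ρ / r) := Real.log_pos ((one_lt_div hr).2 hrρ)
  have hcf : Continuous (fderiv ℝ g) := hg.continuous_fderiv (by simp)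
  set F : ℂ → ℝ := fun z => ‖fderiv ℝ g z‖ ^ 2 with hFdef
  have hF : Continuous F := hcf.norm.pow 2
  set L : ℝ := Real.log (ρ / r) with hLdef
  set E : ℝ := ∫ z in {z : ℂ | r < ‖z - c‖ ∧ ‖z - c‖ < ρ}, F z with hE
  have hE1 := len_polar F hF c r ρ hr hrρ
  rw [← hE] at hE1
  set h : ℝ → ℝ := fun s => ∫ θ in (-Real.pi)..Real.pi, s * F (circleMap c s θ) with hh
  have hhc : Continuous h := by
    apply intervalIntegral.continuous_parametric_intervalIntegral_of_continuous'
    have hcm : Continuous fun p : ℝ × ℝ => circleMap c p.1 p.2 := by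
      unfold circleMap
      fun_prop
    exact continuous_fst.mul (hF.comp hcm)
  have hpos : ∀ s ∈ Ioo r ρ, 0 < h s - E / L * s⁻¹ := by
    intro s hs
    obtain ⟨p, hp, q, hq, h1⟩ := hcon s hs
    have hs0 : 0 < s := hr.trans hs.1
    have h2 := len_circle g hg c s hs0 p q hp hq
    have h3 : 2 * Real.pi * E < 2 * Real.pi * s * h s * L := by
      refine h1.trans_le ?_
      exact mul_le_mul_of_nonneg_right h2 hL.le
    have h4 : E < s * h s * L := by
      have h5 : 2 * Real.pi * E < 2 * Real.pi * (s * h s * L) := by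
        linarith
      exact lt_of_mul_lt_mul_left h5 (by positivity)
    have h6 : E / L * s⁻¹ < h s := by
      rw [← div_eq_mul_inv, div_div, div_lt_iff₀ (by positivity)]
      linarith
    linarith
  have hci : IntervalIntegrable (fun s => E / L * s⁻¹) volume r ρ := by
    apply ContinuousOn.intervalIntegrable
    apply ContinuousOn.mul continuousOn_const
    apply ContinuousOn.inv₀ continuousOn_id
    intro x hx
    rw [uIcc_of_le hrρ.le] at hx
    exact (hr.trans_le hx.1).ne'
  have h7 := intervalIntegral.intervalIntegral_pos_of_pos_on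
    ((hhc.intervalIntegrable r ρ).sub hci) hpos hrρ
  rw [intervalIntegral.integral_sub (hhc.intervalIntegrable r ρ) hci,
    intervalIntegral.integral_const_mul, integral_inv_of_pos hr hρ, ← hE1, ← hLdef,
    div_mul_cancel₀ _ hL.ne', sub_self] at h7
  exact lt_irrefl _ h7

end Pool.Agent.Helper95.QC
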