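import Pool.Agent.Helper95.QC.Seq

/-!
# Project QD, part C, module NMA: decay of the energy
-/

set_option autoImplicit false

open Set Filter Topology

namespace Pool.Agent.Helper95.QC

open Pool.Agent.Helper69.QC

theorem cNMA (nmw : St_NMW) : St_NMA := by
  intro c M0 C1 C2 R hc hM0 hC1 hC2
  set A : ℝ := 8 * C1 * Real.sqrt (R / c) with hA
  have hA0 : 0 ≤ A := by positivity
  set L : ℝ := 2 * A + 1 + C2 with hL
  have hL0 : 0 ≤ L := by positivity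
  set K : ℝ := L ^ 2 + 64 * M0 with hK
  have hK0 : 0 ≤ K := by positivity
  refine ⟨K, hK0, ?_⟩
  intro M Q hMQ hanti hQ hrec k
  have hsK : L ≤ Real.sqrt K := Real.le_sqrt_of_sq_le (by linarith)
  have hsK0 : 0 ≤ Real.sqrt K := Real.sqrt_nonneg K
  have hKs : Real.sqrt K ^ 2 = K := Real.sq_sqrt hK0
  have hmain : 2 * A * Real.sqrt K + C2 ≤ K := by nlinarith
  have hbase : ∀ k : ℕ, k ≤ 6 → M (2 ^ k) ≤ K * ((k : ℝ) + 1) ^ 2 / 2 ^ k := by
    intro k hk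
    have h1 : M (2 ^ k) ≤ M0 := (hMQ _).2.1
    rw [le_div_iff₀ (by positivity)]
    have h2 : (2 : ℝ) ^ k ≤ 64 := by
      calc (2 : ℝ) ^ k ≤ 2 ^ 6 := pow_le_pow_right₀ (by norm_num) hk
        _ = 64 := by norm_num
    have h3 : (1 : ℝ) ≤ ((k : ℝ) + 1) ^ 2 := by
      have : (0 : ℝ) ≤ k := Nat.cast_nonneg k
      nlinarith
    calc M (2 ^ k) * 2 ^ k ≤ M0 * 64 := mul_le_mul h1 h2 (by positivity) hM0
      _ ≤ K := by
        rw [hK]
        nlinarith [sq_nonneg L]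
      _ ≤ K * ((k : ℝ) + 1) ^ 2 := le_mul_of_one_le_right hK0 h3
  rcases Nat.le_total k 6 with hk | hk
  · exact hbase k hk
  induction k, hk using Nat.le_induction with
  | base => exact hbase 6 le_rfl
  | succ k hk ih =>
    have hT : (0 : ℝ) < 2 ^ k := by positivity
    have h1 := seq_avg nmw M (fun j => Real.sqrt (Q j)) C1
      (C2 * Real.exp (-((4 * (k + 1) : ℕ) : ℝ) / 2)) (4 * (k + 1)) (2 ^ k) hC1
      (fun j => Real.sqrt_nonneg _) hanti (by omega) (seq_pow k hk)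
      (fun t ht => hrec (4 * (k + 1)) t (by omega) ht)
    set F : ℝ := ∑ j ∈ Finset.Ico (2 ^ k) (2 * 2 ^ k), Real.sqrt (Q j) with hF
    have hF2 : F ^ 2 ≤ 2 ^ k * (R / c * M (2 ^ k)) := by
      have h2 := sq_sum_le_card_mul_sum_sq (s := Finset.Ico (2 ^ k) (2 * 2 ^ k))
        (f := fun j => Real.sqrt (Q j))
      rw [Nat.card_Ico] at h2
      have h3 : (2 * 2 ^ k - 2 ^ k : ℕ) = 2 ^ k := by omega
      rw [h3] at h2
      have h4 : ∑ j ∈ Finset.Ico (2 ^ k) (2 * 2 ^ k), Real.sqrt (Q j) ^ 2 =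
          ∑ j ∈ Finset.Ico (2 ^ k) (2 * 2 ^ k), Q j :=
        Finset.sum_congr rfl fun j _ => Real.sq_sqrt (hMQ j).2.2
      rw [h4] at h2
      have h5 := seq_Q M Q hanti (fun j => (hMQ j).1) c hc R (2 ^ k) hQ
      refine h2.trans ?_
      push_cast
      exact mul_le_mul_of_nonneg_left h5 hT.le
    have hF3 : F ^ 2 ≤ (Real.sqrt (R / c) * Real.sqrt K * ((k : ℝ) + 1)) ^ 2 := by
      rw [mul_pow, mul_pow, Real.sq_sqrt (by positivity), hKs]
      refine hF2.trans ?_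
      have h6 : 2 ^ k * (R / c * M (2 ^ k)) ≤
          2 ^ k * (R / c * (K * ((k : ℝ) + 1) ^ 2 / 2 ^ k)) := by
        apply mul_le_mul_of_nonneg_left _ hT.le
        exact mul_le_mul_of_nonneg_left ih (by positivity)
      refine h6.trans (le_of_eq ?_)
      field_simp
    have hF4 : F ≤ Real.sqrt (R / c) * Real.sqrt K * ((k : ℝ) + 1) :=
      le_of_sq_le_sq hF3 (by positivity)
    have h7 : 2 / ((2 ^ k : ℕ) : ℝ) * C1 * ((4 * (k + 1) : ℕ) : ℝ) * F ≤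
        A * Real.sqrt K * ((k : ℝ) + 1) ^ 2 / 2 ^ k := by
      have h8 : 2 / ((2 ^ k : ℕ) : ℝ) * C1 * ((4 * (k + 1) : ℕ) : ℝ) * F ≤
          2 / ((2 ^ k : ℕ) : ℝ) * C1 * ((4 * (k + 1) : ℕ) : ℝ) *
            (Real.sqrt (R / c) * Real.sqrt K * ((k : ℝ) + 1)) :=
        mul_le_mul_of_nonneg_left hF4 (by positivity)
      refine h8.trans (le_of_eq ?_)
      rw [hA]
      push_cast
      ring
    have h9 : C2 * Real.exp (-((4 * (k + 1) : ℕ) : ℝ) / 2) ≤ C2 / (2 * 2 ^ k) := by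
      have h10 := seq_exp k
      have h11 : (1 : ℝ) / 4 ^ (k + 1) ≤ 1 / (2 * 2 ^ k) := by
        apply one_div_le_one_div_of_le (by positivity)
        have h12 : (2 : ℝ) * 2 ^ k = 2 ^ (k + 1) := by ring
        rw [h12]
        exact pow_le_pow_left₀ (by norm_num) (by norm_num) _
      calc C2 * Real.exp (-((4 * (k + 1) : ℕ) : ℝ) / 2) ≤ C2 * (1 / (2 * 2 ^ k)) :=
            mul_le_mul_of_nonneg_left (h10.trans h11) hC2
        _ = C2 / (2 * 2 ^ k) := by ring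
    have h13 : (2 : ℕ) ^ (k + 1) = 2 * 2 ^ k := by ring
    rw [h13]
    have h14 : M (2 * 2 ^ k) ≤ A * Real.sqrt K * ((k : ℝ) + 1) ^ 2 / 2 ^ k +
        C2 / (2 * 2 ^ k) := by linarith
    refine h14.trans ?_
    have h15 : A * Real.sqrt K * ((k : ℝ) + 1) ^ 2 / 2 ^ k + C2 / (2 * 2 ^ k) =
        (2 * A * Real.sqrt K * ((k : ℝ) + 1) ^ 2 + C2) / (2 * 2 ^ k) := by
      field_simp
    rw [h15]
    have h16 : (2 : ℝ) ^ (k + 1) = 2 * 2 ^ k := by ring
    rw [h16]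
    apply div_le_div_of_nonneg_right _ (by positivity)
    push_cast
    have hk0 : (0 : ℝ) ≤ k := Nat.cast_nonneg k
    have h17 : ((k : ℝ) + 1) ^ 2 ≤ ((k : ℝ) + 1 + 1) ^ 2 := by nlinarith
    have h18 : (1 : ℝ) ≤ ((k : ℝ) + 1 + 1) ^ 2 := by nlinarith
    calc 2 * A * Real.sqrt K * ((k : ℝ) + 1) ^ 2 + C2
        ≤ 2 * A * Real.sqrt K * ((k : ℝ) + 1 + 1) ^ 2 + C2 * ((k : ℝ) + 1 + 1) ^ 2 := by
          apply add_le_add
          · exact mul_le_mul_of_nonneg_left h17 (by positivity)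
          · exact le_mul_of_one_le_right hC2 h18
      _ = (2 * A * Real.sqrt K + C2) * ((k : ℝ) + 1 + 1) ^ 2 := by ring
      _ ≤ K * ((k : ℝ) + 1 + 1) ^ 2 := mul_le_mul_of_nonneg_right hmain (by positivity)

end Pool.Agent.Helper95.QC
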