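import Pool.Agent.Helper95.QC.Seq

/-!
# Project QD, part C, module NMB: decay of the defect
-/

set_option autoImplicit false

open Set Filter Topology

namespace Pool.Agent.Helper95.QC

open Pool.Agent.Helper69.QC

theorem cNMB (nmw : St_NMW) : St_NMB := by
  intro c V0 C1 C2 K1 R hc hV0 hC1 hC2 hK1
  set K : ℝ := 32 * C1 * (R / c) * K1 + C2 + 4096 * V0 with hK
  have hK0 : 0 ≤ K := by positivity
  refine ⟨K, hK0, ?_⟩
  intro M Q V hMQ hanti hantiV hQ hM2 hrec k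
  rcases Nat.lt_or_ge 6 k with hk | hk
  · obtain ⟨k, rfl⟩ : ∃ k', k = k' + 1 := ⟨k - 1, by omega⟩
    have hk6 : 6 ≤ k := by omega
    have hT : (0 : ℝ) < 2 ^ k := by positivity
    have h1 := seq_avg nmw V Q C1
      (C2 * Real.exp (-((4 * (k + 1) : ℕ) : ℝ) / 2)) (4 * (k + 1)) (2 ^ k) hC1
      (fun j => (hMQ j).2.1) hantiV (by omega) (seq_pow k hk6)
      (fun t ht => hrec (4 * (k + 1)) t (by omega) ht)
    have h2 := seq_Q M Q hanti (fun j => (hMQ j).1) c hc R (2 ^ k) hQ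
    have h3 : ∑ j ∈ Finset.Ico (2 ^ k) (2 * 2 ^ k), Q j ≤
        R / c * (K1 * ((k : ℝ) + 1) ^ 2 / 2 ^ k) :=
      h2.trans (mul_le_mul_of_nonneg_left (hM2 k) (by positivity))
    have h7 : 2 / ((2 ^ k : ℕ) : ℝ) * C1 * ((4 * (k + 1) : ℕ) : ℝ) *
        ∑ j ∈ Finset.Ico (2 ^ k) (2 * 2 ^ k), Q j ≤
        32 * C1 * (R / c) * K1 * ((k : ℝ) + 1) ^ 3 / 4 ^ (k + 1) := by
      have h8 : 2 / ((2 ^ k : ℕ) : ℝ) * C1 * ((4 * (k + 1) : ℕ) : ℝ) *
          ∑ j ∈ Finset.Ico (2 ^ k) (2 * 2 ^ k), Q j ≤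
          2 / ((2 ^ k : ℕ) : ℝ) * C1 * ((4 * (k + 1) : ℕ) : ℝ) *
            (R / c * (K1 * ((k : ℝ) + 1) ^ 2 / 2 ^ k)) :=
        mul_le_mul_of_nonneg_left h3 (by positivity)
      refine h8.trans (le_of_eq ?_)
      have h9 : (4 : ℝ) ^ (k + 1) = 4 * (2 ^ k * 2 ^ k) := by
        rw [pow_succ, ← mul_pow]
        norm_num
        ring
      rw [h9]
      push_cast
      field_simp
      ring
    have h9 : C2 * Real.exp (-((4 * (k + 1) : ℕ) : ℝ) / 2) ≤ C2 / 4 ^ (k + 1) := by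
      calc C2 * Real.exp (-((4 * (k + 1) : ℕ) : ℝ) / 2) ≤ C2 * (1 / 4 ^ (k + 1)) :=
            mul_le_mul_of_nonneg_left (seq_exp k) hC2
        _ = C2 / 4 ^ (k + 1) := by ring
    have h13 : (2 : ℕ) ^ (k + 1) = 2 * 2 ^ k := by ring
    rw [h13]
    have h14 : V (2 * 2 ^ k) ≤ 32 * C1 * (R / c) * K1 * ((k : ℝ) + 1) ^ 3 / 4 ^ (k + 1) +
        C2 / 4 ^ (k + 1) := by linarith
    refine h14.trans ?_
    rw [← add_div]
    apply div_le_div_of_nonneg_right _ (by positivity)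
    push_cast
    have hk0 : (0 : ℝ) ≤ k := Nat.cast_nonneg k
    have h17 : ((k : ℝ) + 1) ^ 3 ≤ ((k : ℝ) + 1 + 1) ^ 3 :=
      pow_le_pow_left₀ (by positivity) (by linarith) 3
    have h18 : (1 : ℝ) ≤ ((k : ℝ) + 1 + 1) ^ 3 := one_le_pow₀ (by linarith)
    calc 32 * C1 * (R / c) * K1 * ((k : ℝ) + 1) ^ 3 + C2
        ≤ 32 * C1 * (R / c) * K1 * ((k : ℝ) + 1 + 1) ^ 3 + C2 * ((k : ℝ) + 1 + 1) ^ 3 := by
          apply add_le_add
          · exact mul_le_mul_of_nonneg_left h17 (by positivity)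
          · exact le_mul_of_one_le_right hC2 h18
      _ = (32 * C1 * (R / c) * K1 + C2) * ((k : ℝ) + 1 + 1) ^ 3 := by ring
      _ ≤ K * ((k : ℝ) + 1 + 1) ^ 3 := by
          apply mul_le_mul_of_nonneg_right _ (by positivity)
          rw [hK]
          linarith
  · have h1 : V (2 ^ k) ≤ V0 := (hMQ _).2.2.2
    rw [le_div_iff₀ (by positivity)]
    have h2 : (4 : ℝ) ^ k ≤ 4096 := by
      calc (4 : ℝ) ^ k ≤ 4 ^ 6 := pow_le_pow_right₀ (by norm_num) hk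
        _ = 4096 := by norm_num
    have h3 : (1 : ℝ) ≤ ((k : ℝ) + 1) ^ 3 := by
      have : (0 : ℝ) ≤ k := Nat.cast_nonneg k
      exact one_le_pow₀ (by linarith)
    have h4 : 0 ≤ 32 * C1 * (R / c) * K1 := by positivity
    calc V (2 ^ k) * 4 ^ k ≤ V0 * 4096 := mul_le_mul h1 h2 (by positivity) hV0
      _ ≤ K := by
        rw [hK]
        linarith
      _ ≤ K * ((k : ℝ) + 1) ^ 3 := le_mul_of_one_le_right hK0 h3

end Pool.Agent.Helper95.QC
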