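import Pool.Agent.Helper69.QC.St

/-!
# Project QD, part C, module NMW: window averaging
-/

set_option autoImplicit false

open Set Filter Topology

namespace Pool.Agent.Helper95.QC

open Pool.Agent.Helper69.QC

theorem cNMW : St_NMW := by
  intro f S T hf hST
  have h1 : ∀ t ∈ Finset.Ioc (T + S) (2 * T), ∑ j ∈ Finset.Ico (t - S) t, f j =
      ∑ i ∈ Finset.range S, f (t - S + i) := by
    intro t ht
    rw [Finset.mem_Ioc] at ht
    rw [Finset.sum_Ico_eq_sum_range]
    congr 2
    omega
  rw [Finset.sum_congr rfl h1, Finset.sum_comm]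
  have h2 : ∀ i ∈ Finset.range S, ∑ t ∈ Finset.Ioc (T + S) (2 * T), f (t - S + i) ≤
      ∑ j ∈ Finset.Ico T (2 * T), f j := by
    intro i hi
    rw [Finset.mem_range] at hi
    have hinj : Set.InjOn (fun t => t - S + i) (Finset.Ioc (T + S) (2 * T) : Set ℕ) := by
      intro a ha b hb hab
      simp only [Finset.coe_Ioc, Set.mem_Ioc] at ha hb
      simp only at hab
      omega
    rw [← Finset.sum_image (f := f) hinj]
    apply Finset.sum_le_sum_of_subset_of_nonneg
    · intro x hx
      rw [Finset.mem_image] at hx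
      obtain ⟨t, ht, rfl⟩ := hx
      rw [Finset.mem_Ioc] at ht
      rw [Finset.mem_Ico]
      omega
    · intro j _ _
      exact hf j
  refine (Finset.sum_le_sum h2).trans (le_of_eq ?_)
  rw [Finset.sum_const, Finset.card_range, nsmul_eq_mul]

end Pool.Agent.Helper95.QC
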