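import Pool.Agent.Helper69.QC.St

/-!
# Project QD, part C, module RDA: a reduced basis
-/

set_option autoImplicit false

open Complex MeasureTheory Set Filter Topology Metric
open scoped Real ComplexConjugate

namespace Pool.Agent.Helper95.QC

open Pool.Agent.Helper69.QC

/-- The quadratic form. -/
private noncomputable def nq (u v x y : ℝ) : ℝ := ((1 + u) * x + v * y) ^ 2 + (v * x + (1 - u) * y) ^ 2

/-- The bilinear form. -/
private noncomputable def bq (u v x y z t : ℝ) : ℝ :=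
  ((1 + u) * x + v * y) * ((1 + u) * z + v * t) + (v * x + (1 - u) * y) * (v * z + (1 - u) * t)

private theorem nq_mul (u v x y z t : ℝ) :
    nq u v x y * nq u v z t = bq u v x y z t ^ 2 + (1 - (u ^ 2 + v ^ 2)) ^ 2 * (x * t - y * z) ^ 2 := by
  unfold nq bq
  ring

private theorem bq_add (u v x y z t k : ℝ) :
    bq u v x y (z + k * x) (t + k * y) = bq u v x y z t + k * nq u v x y := by
  unfold nq bq
  ring

private theorem nq_lower (u v x y : ℝ) :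
    (1 - (u ^ 2 + v ^ 2)) ^ 2 * (x ^ 2 + y ^ 2) ≤ (2 + 2 * (u ^ 2 + v ^ 2)) * nq u v x y := by
  have h : (2 + 2 * (u ^ 2 + v ^ 2)) * nq u v x y - (1 - (u ^ 2 + v ^ 2)) ^ 2 * (x ^ 2 + y ^ 2) =
      (((1 + u) ^ 2 + v ^ 2) * x + 2 * v * y) ^ 2 + (2 * v * x + (v ^ 2 + (1 - u) ^ 2) * y) ^ 2 := by
    unfold nq
    ring
  have h2 : 0 ≤ (((1 + u) ^ 2 + v ^ 2) * x + 2 * v * y) ^ 2 +
      (2 * v * x + (v ^ 2 + (1 - u) ^ 2) * y) ^ 2 := by positivity
  linarith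

private theorem nq_gi (w : ℂ) (p q : ℤ) :
    ‖gi p q + w * conj (gi p q)‖ ^ 2 = nq w.re w.im p q := by
  rw [Complex.sq_norm, Complex.normSq_apply]
  simp [gi, nq]
  ring

private theorem norm_w (w : ℂ) : ‖w‖ ^ 2 = w.re ^ 2 + w.im ^ 2 := by
  rw [Complex.sq_norm, Complex.normSq_apply]
  ring

private theorem rda_min (u v : ℝ) (hD : 0 < 1 - (u ^ 2 + v ^ 2)) :
    ∃ p q : ℤ, (p, q) ≠ (0, 0) ∧ ∀ a b : ℤ, (a, b) ≠ (0, 0) → nq u v p q ≤ nq u v a b := by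
  let T : Set (ℤ × ℤ) := {x | x ≠ (0, 0) ∧ nq u v x.1 x.2 ≤ nq u v 1 0}
  let C : ℝ := (2 + 2 * (u ^ 2 + v ^ 2)) * nq u v 1 0 / (1 - (u ^ 2 + v ^ 2)) ^ 2
  have hC : ∀ x ∈ T, ((x.1 : ℝ)) ^ 2 + (x.2 : ℝ) ^ 2 ≤ C := by
    intro x hx
    rw [le_div_iff₀ (by positivity)]
    have h1 := nq_lower u v x.1 x.2
    have h2 : (2 + 2 * (u ^ 2 + v ^ 2)) * nq u v x.1 x.2 ≤
        (2 + 2 * (u ^ 2 + v ^ 2)) * nq u v 1 0 :=
      mul_le_mul_of_nonneg_left hx.2 (by positivity)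
    linarith
  have hb : ∀ (n : ℤ), (n : ℝ) ^ 2 ≤ C → n ∈ Icc (-⌈C⌉) ⌈C⌉ := by
    intro n hn
    have h1 : ((n ^ 2 : ℤ) : ℝ) ≤ C := by push_cast; exact hn
    have h2 : n ^ 2 ≤ ⌈C⌉ := by
      have := h1.trans (Int.le_ceil C)
      exact_mod_cast this
    constructor <;> nlinarith [sq_nonneg n, sq_nonneg (n - 1), sq_nonneg (n + 1)]
  have hfin : T.Finite := by
    apply ((Set.finite_Icc (-⌈C⌉) ⌈C⌉).prod (Set.finite_Icc (-⌈C⌉) ⌈C⌉)).subset
    intro x hx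
    have h := hC x hx
    exact ⟨hb _ (by nlinarith [sq_nonneg (x.2 : ℝ)]), hb _ (by nlinarith [sq_nonneg (x.1 : ℝ)])⟩
  have hne : T.Nonempty := ⟨(1, 0), by simp, by simp⟩
  obtain ⟨x, hx, hmin⟩ := Set.exists_min_image T (fun x => nq u v x.1 x.2) hfin hne
  refine ⟨x.1, x.2, hx.1, ?_⟩
  intro a b hab
  by_cases h : nq u v a b ≤ nq u v 1 0
  · exact hmin (a, b) ⟨hab, h⟩
  · exact hx.2.trans (not_le.1 h).le

private theorem rda_prim (u v : ℝ) (hD : 0 < 1 - (u ^ 2 + v ^ 2)) :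
    ∃ p q r s : ℤ, p * s - q * r = 1 ∧
      ∀ a b : ℤ, (a, b) ≠ (0, 0) → nq u v p q ≤ nq u v a b := by
  obtain ⟨p, q, hpq, hmin⟩ := rda_min u v hD
  have hg : 0 < Int.gcd p q := by
    rw [Int.gcd_pos_iff]
    by_contra h
    push Not at h
    apply hpq
    rw [h.1, h.2]
  obtain ⟨g, m, n, hg0, hmn, hp, hq⟩ := Int.exists_gcd_one' hg
  rw [← Int.isCoprime_iff_gcd_eq_one] at hmn
  obtain ⟨a, b, hab⟩ := hmn
  refine ⟨m, n, -b, a, by linear_combination hab, ?_⟩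
  intro c d hcd
  refine le_trans ?_ (hmin c d hcd)
  have h1 : nq u v p q = (g : ℝ) ^ 2 * nq u v m n := by
    rw [hp, hq]
    unfold nq
    push_cast
    ring
  have h2 : (1 : ℝ) ≤ g := by exact_mod_cast hg0
  have h3 : (1 : ℝ) ≤ (g : ℝ) ^ 2 := one_le_pow₀ h2
  have h4 : 0 ≤ nq u v m n := by
    unfold nq
    positivity
  rw [h1]
  nlinarith

theorem cRDA : St_RDA := by
  intro ε hε w hw
  obtain ⟨hw1, hT⟩ := hw
  have hw0 := norm_nonneg w
  have hD : 0 < 1 - (w.re ^ 2 + w.im ^ 2) := by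
    rw [← norm_w]
    nlinarith
  obtain ⟨p, q, r, s, h1, hmin⟩ := rda_prim w.re w.im hD
  have hpq : (p, q) ≠ (0, 0) := by
    intro h
    rw [Prod.mk.injEq] at h
    rw [h.1, h.2] at h1
    simp at h1
  set D : ℝ := 1 - (w.re ^ 2 + w.im ^ 2) with hDdef
  set N : ℝ := nq w.re w.im p q with hN
  have hNl : ε ^ 2 * D ≤ N := by
    have := hT p q hpq
    rw [nq_gi, norm_w] at this
    exact this
  have hN0 : 0 < N := lt_of_lt_of_le (by positivity) hNl
  set k : ℤ := -round (bq w.re w.im p q r s / N) with hk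
  have hdet : p * (s + k * q) - q * (r + k * p) = 1 := by linear_combination h1
  have hrs : (r + k * p, s + k * q) ≠ (0, 0) := by
    intro h
    rw [Prod.mk.injEq] at h
    rw [h.1, h.2] at hdet
    simp at hdet
  have hB0 : bq w.re w.im p q ((r + k * p : ℤ) : ℝ) ((s + k * q : ℤ) : ℝ) =
      bq w.re w.im p q r s + k * N := by
    push_cast
    exact bq_add _ _ _ _ _ _ _
  have hB : |bq w.re w.im p q ((r + k * p : ℤ) : ℝ) ((s + k * q : ℤ) : ℝ)| ≤ N / 2 := by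
    rw [hB0]
    have h := abs_sub_round (bq w.re w.im p q r s / N)
    have h2 : bq w.re w.im p q r s + k * N =
        N * (bq w.re w.im p q r s / N - round (bq w.re w.im p q r s / N)) := by
      rw [hk]
      push_cast
      field_simp
      ring
    rw [h2, abs_mul, abs_of_pos hN0]
    nlinarith
  set M : ℝ := nq w.re w.im ((r + k * p : ℤ) : ℝ) ((s + k * q : ℤ) : ℝ) with hM
  set B : ℝ := bq w.re w.im p q ((r + k * p : ℤ) : ℝ) ((s + k * q : ℤ) : ℝ) with hBd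
  have hMN : N ≤ M := hmin _ _ hrs
  have hprod : N * M = B ^ 2 + D ^ 2 := by
    have h := nq_mul w.re w.im p q ((r + k * p : ℤ) : ℝ) ((s + k * q : ℤ) : ℝ)
    have h2 : ((p : ℝ) * ((s + k * q : ℤ) : ℝ) - q * ((r + k * p : ℤ) : ℝ)) = 1 := by
      exact_mod_cast hdet
    rw [h2] at h
    rw [hM, hN, h]
    ring
  have hBsq : B ^ 2 ≤ N ^ 2 / 4 := by
    have := abs_le.1 hB
    nlinarith
  have hND : N ≤ 3 / 2 * D := by
    by_contra hcon
    push Not at hcon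
    nlinarith
  have hMle : M ≤ D / ε ^ 2 + N / 4 := by
    have h2 : N * M ≤ N * (D / ε ^ 2 + N / 4) := by
      have h3 : D ^ 2 ≤ N * (D / ε ^ 2) := by
        have h4 : D ^ 2 = (ε ^ 2 * D) * (D / ε ^ 2) := by
          field_simp
        rw [h4]
        exact mul_le_mul_of_nonneg_right hNl (by positivity)
      nlinarith
    exact le_of_mul_le_mul_left h2 hN0
  refine ⟨p, q, r + k * p, s + k * q, hdet, ?_⟩
  rw [nq_gi, nq_gi, norm_w]
  change N + M ≤ D * (1 / ε ^ 2 + 2)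
  have h5 : D * (1 / ε ^ 2 + 2) = D / ε ^ 2 + 2 * D := by ring
  rw [h5]
  linarith

end Pool.Agent.Helper95.QC
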