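import Pool.Agent.Helper69.QC.St

/-!
# Project QD, part C, module REC: the recurrence inequality
-/

set_option autoImplicit false

open Complex MeasureTheory Set Filter Topology Metric
open scoped Real ComplexConjugate

namespace Pool.Agent.Helper95.QC

open Pool.Agent.Helper69.QC

theorem cREC (rrb : St_RRB) (har : St_HAR) (stb : St_STB) (trn : St_TRN) (cnt : St_CNT) :
    St_REC := by
  intro E hE M hM ε hε hε2 S t hS hSt
  obtain ⟨hcont, -⟩ := har E hE
  have hpi := Real.pi_pos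
  have hρ0 : 0 ≤ rr (t : ℝ) := rrb.1 _ (Nat.cast_nonneg t)
  have hρ1 : rr (t : ℝ) < 1 := rrb.2.1 _
  have hzb : ∀ x : ℝ, circleMap 0 (rr (t : ℝ)) x ∈ ball (0 : ℂ) 1 := by
    intro x
    rw [mem_ball_zero_iff, norm_circleMap_zero, abs_of_nonneg hρ0]
    exact hρ1
  have hM0 : 0 ≤ M := by
    have h0 : (0 : ℂ) ∈ ball (0 : ℂ) 1 := by simp
    exact (hE.1 0 h0).trans (hM 0 h0)
  set g : ℝ → ℝ := fun θ => E (circleMap 0 (rr (t : ℝ)) θ) with hg
  have hgc : Continuous g := hcont.comp_continuous (continuous_circleMap 0 _) hzb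
  have hg0 : ∀ θ, 0 ≤ g θ := fun θ => hE.1 _ (hzb θ)
  have hgM : ∀ θ, g θ ≤ M := fun θ => hM _ (hzb θ)
  let A : ℕ → Set ℝ := fun j => {θ : ℝ | circleMap 0 (rr (j : ℝ)) θ ∈ Thk ε}
  have hA : ∀ j, MeasurableSet (A j) := fun j =>
    (continuous_circleMap 0 (rr (j : ℝ))).measurable (stb.2 ε)
  let B : Set ℝ := {θ : ℝ | θ ∈ Icc 0 (2 * π) ∧
      ∀ j : ℕ, t - S ≤ j → j ≤ t - 1 → circleMap 0 (rr (j : ℝ)) θ ∉ Thk ε}
  have hBv : volume B ≤ ENNReal.ofReal (100 * Real.exp (-(((t - 1 : ℕ) : ℝ) - ((t - S : ℕ) : ℝ)) / 2)) :=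
    cnt ε hε hε2 (t - S) (t - 1) (by omega)
  have hB : MeasurableSet B := by
    have h1 : B = Icc 0 (2 * π) ∩ ⋂ j ∈ Finset.Icc (t - S) (t - 1), (A j)ᶜ := by
      ext θ
      simp only [B, A, Set.mem_inter_iff, Set.mem_ofPred_eq, Set.mem_iInter, Finset.mem_Icc,
        Set.mem_compl_iff, and_imp]
    rw [h1]
    exact measurableSet_Icc.inter (Finset.measurableSet_biInter _ fun j _ => (hA j).compl)
  have hgi : IntervalIntegrable g volume 0 (2 * π) := hgc.intervalIntegrable _ _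
  have hAi : ∀ j, IntervalIntegrable ((A j).indicator g) volume 0 (2 * π) := by
    intro j
    rw [intervalIntegrable_iff_integrableOn_Ioc_of_le (by positivity)] at hgi ⊢
    exact Integrable.indicator hgi (hA j)
  have hBi : IntervalIntegrable (B.indicator fun _ => M) volume 0 (2 * π) := by
    rw [intervalIntegrable_iff_integrableOn_Ioc_of_le (by positivity)]
    exact Integrable.indicator (integrable_const M) hB
  have hsi : IntervalIntegrable (fun θ => ∑ j ∈ Finset.Ico (t - S) t, (A j).indicator g θ)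
      volume 0 (2 * π) := by
    have h0 := IntervalIntegrable.sum (Finset.Ico (t - S) t) (f := fun j => (A j).indicator g)
      (μ := volume) (a := 0) (b := 2 * π) fun j _ => hAi j
    have h00 : (∑ j ∈ Finset.Ico (t - S) t, (A j).indicator g) =
        fun θ => ∑ j ∈ Finset.Ico (t - S) t, (A j).indicator g θ := by
      funext θ
      rw [Finset.sum_apply]
    rw [h00] at h0
    exact h0
  have h1 : ∫ θ in (0 : ℝ)..(2 * π), g θ ≤
      ∫ θ in (0 : ℝ)..(2 * π), (∑ j ∈ Finset.Ico (t - S) t, (A j).indicator g θ +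
        B.indicator (fun _ => M) θ) := by
    apply intervalIntegral.integral_mono_on (by positivity) hgi
    · exact hsi.add hBi
    intro θ hθ
    have hs0 : ∀ j ∈ Finset.Ico (t - S) t, 0 ≤ (A j).indicator g θ :=
      fun j _ => Set.indicator_nonneg (fun x _ => hg0 x) θ
    by_cases hθB : θ ∈ B
    · rw [Set.indicator_of_mem hθB]
      have := Finset.sum_nonneg hs0
      linarith [hgM θ]
    · rw [Set.indicator_of_notMem hθB, add_zero]
      have h2 : ∃ j : ℕ, t - S ≤ j ∧ j ≤ t - 1 ∧ circleMap 0 (rr (j : ℝ)) θ ∈ Thk ε := by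
        by_contra hcon
        push Not at hcon
        exact hθB ⟨hθ, hcon⟩
      obtain ⟨j, hj1, hj2, hj3⟩ := h2
      have hj : j ∈ Finset.Ico (t - S) t := by
        rw [Finset.mem_Ico]
        omega
      refine le_trans (le_of_eq ?_) (Finset.single_le_sum hs0 hj)
      rw [Set.indicator_of_mem]
      exact hj3
  rw [intervalIntegral.integral_add hsi hBi,
    intervalIntegral.integral_finsetSum fun j _ => hAi j] at h1
  have h3 : ∫ θ in (0 : ℝ)..(2 * π), B.indicator (fun _ => M) θ ≤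
      M * (100 * Real.exp (-(((t - 1 : ℕ) : ℝ) - ((t - S : ℕ) : ℝ)) / 2)) := by
    rw [intervalIntegral.integral_of_le (by positivity), integral_indicator_const M hB,
      smul_eq_mul, mul_comm]
    apply mul_le_mul_of_nonneg_left _ hM0
    apply ENNReal.toReal_le_of_le_ofReal (by positivity)
    exact le_trans (Measure.restrict_le_self B) hBv
  have h4 : ∀ j ∈ Finset.Ico (t - S) t, ∫ θ in (0 : ℝ)..(2 * π), (A j).indicator g θ ≤
      100 * ∫ θ in (0 : ℝ)..(2 * π), (Thk (ε / 2)).indicator E (circleMap 0 (rr (j : ℝ)) θ) := by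
    intro j hj
    rw [Finset.mem_Ico] at hj
    have hj1 : (j : ℝ) + 1 ≤ t := by exact_mod_cast hj.2
    exact trn E hE ε hε j t (Nat.cast_nonneg j) hj1
  have h5 : ∫ θ in (0 : ℝ)..(2 * π), g θ ≤ ∑ j ∈ Finset.Ico (t - S) t,
      100 * (∫ θ in (0 : ℝ)..(2 * π), (Thk (ε / 2)).indicator E (circleMap 0 (rr (j : ℝ)) θ)) +
      M * (100 * Real.exp (-(((t - 1 : ℕ) : ℝ) - ((t - S : ℕ) : ℝ)) / 2)) :=
    h1.trans (add_le_add (Finset.sum_le_sum h4) h3)
  have h6 : Real.exp (-(((t - 1 : ℕ) : ℝ) - ((t - S : ℕ) : ℝ)) / 2) ≤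
      5 / 3 * Real.exp (-(S : ℝ) / 2) := by
    have h7 : -(((t - 1 : ℕ) : ℝ) - ((t - S : ℕ) : ℝ)) / 2 = 1 / 2 + -(S : ℝ) / 2 := by
      rw [Nat.cast_sub (by omega), Nat.cast_sub hSt]
      push_cast
      ring
    rw [h7, Real.exp_add]
    apply mul_le_mul_of_nonneg_right _ (Real.exp_pos _).le
    have h8 : Real.exp (1 / 2) ^ 2 = Real.exp 1 := by
      rw [← Real.exp_nat_mul]
      norm_num
    have h9 := Real.exp_one_lt_d9
    apply le_of_sq_le_sq _ (by norm_num)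
    rw [h8]
    norm_num
    linarith
  have h10 : cm E t = (2 * π)⁻¹ * ∫ θ in (0 : ℝ)..(2 * π), g θ := by
    rw [cm, Real.circleAverage_def, smul_eq_mul]
  have h11 : ∀ j : ℕ, cm ((Thk (ε / 2)).indicator E) j = (2 * π)⁻¹ *
      ∫ θ in (0 : ℝ)..(2 * π), (Thk (ε / 2)).indicator E (circleMap 0 (rr (j : ℝ)) θ) := by
    intro j
    rw [cm, Real.circleAverage_def, smul_eq_mul]
  rw [h10]
  simp_rw [h11]
  rw [← Finset.mul_sum] at h5
  rw [← Finset.mul_sum]
  set I : ℝ := ∑ j ∈ Finset.Ico (t - S) t,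
      ∫ θ in (0 : ℝ)..(2 * π), (Thk (ε / 2)).indicator E (circleMap 0 (rr (j : ℝ)) θ) with hI
  have h12 : (2 * π)⁻¹ * ∫ θ in (0 : ℝ)..(2 * π), g θ ≤
      (2 * π)⁻¹ * (100 * I + M * (100 * (5 / 3 * Real.exp (-(S : ℝ) / 2)))) := by
    apply mul_le_mul_of_nonneg_left _ (by positivity)
    refine h5.trans ?_
    have h13 := mul_le_mul_of_nonneg_left h6 hM0
    nlinarith
  refine h12.trans ?_
  have h14 : (2 * π)⁻¹ * (M * (100 * (5 / 3 * Real.exp (-(S : ℝ) / 2)))) ≤
      30 * M * Real.exp (-(S : ℝ) / 2) := by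
    have h15 : (2 * π)⁻¹ ≤ 1 / 6 := by
      rw [← one_div]
      apply one_div_le_one_div_of_le (by norm_num)
      have := Real.pi_gt_three
      linarith
    have h16 : 0 ≤ M * Real.exp (-(S : ℝ) / 2) := by positivity
    calc (2 * π)⁻¹ * (M * (100 * (5 / 3 * Real.exp (-(S : ℝ) / 2))))
        = (2 * π)⁻¹ * (500 / 3 * (M * Real.exp (-(S : ℝ) / 2))) := by ring
      _ ≤ 1 / 6 * (500 / 3 * (M * Real.exp (-(S : ℝ) / 2))) :=
          mul_le_mul_of_nonneg_right h15 (by positivity)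
      _ ≤ 30 * M * Real.exp (-(S : ℝ) / 2) := by nlinarith
  calc (2 * π)⁻¹ * (100 * I + M * (100 * (5 / 3 * Real.exp (-(S : ℝ) / 2))))
      = 100 * ((2 * π)⁻¹ * I) + (2 * π)⁻¹ * (M * (100 * (5 / 3 * Real.exp (-(S : ℝ) / 2)))) := by
        ring
    _ ≤ 100 * ((2 * π)⁻¹ * I) + 30 * M * Real.exp (-(S : ℝ) / 2) := by linarith

end Pool.Agent.Helper95.QC
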