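import Pool.Agent.Helper69.QC.St

/-!
# Project QD, part C, module SHA: the shadow estimate
-/

set_option autoImplicit false

open Complex MeasureTheory Set Filter Topology Metric
open scoped Real ComplexConjugate

namespace Pool.Agent.Helper95.QC

open Pool.Agent.Helper69.QC

private theorem sha_rho (rrb : St_RRB) (D t : ℝ) (hD : 0 ≤ D) (hDt : D + 1 ≤ t) :
    2 / 5 * (1 - rr D) ≤ rr t - rr D ∧ 2 / 5 ≤ rr t := by
  obtain ⟨r0, r1, rmono, _, r4, _, _, _⟩ := rrb
  have he : (5 / 2 : ℝ) ≤ Real.exp 1 := by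
    have := Real.exp_one_gt_d9
    linarith
  have h1 := r4 D
  have h2 := r4 (D + 1)
  have hx : (1 : ℝ) ≤ Real.exp D := Real.one_le_exp hD
  have h3 : Real.exp (D + 1) = Real.exp D * Real.exp 1 := Real.exp_add _ _
  have h4 : 5 / 2 * Real.exp D ≤ Real.exp (D + 1) := by
    rw [h3]
    nlinarith
  have hmono : rr (D + 1) ≤ rr t := rmono.monotone hDt
  have h5 : 1 - rr (D + 1) ≤ 3 / 5 * (1 - rr D) := by
    rw [h1, h2, ← mul_div_assoc, div_le_div_iff₀ (by positivity) (by positivity)]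
    nlinarith
  constructor
  · linarith
  · have h6 : 1 - rr 1 ≤ 3 / 5 := by
      rw [r4 1, div_le_iff₀ (by positivity)]
      linarith
    have h7 : rr 1 ≤ rr t := rmono.monotone (by linarith)
    linarith

private theorem sha_norm (ρ r θ h s : ℝ) (hr : r ≤ ρ) (hρ : ρ ≤ 1) (hρ0 : 0 ≤ ρ) (hs : s = 1 - r)
    (hh : |h| ≤ s) : ‖circleMap 0 ρ (θ + h) - circleMap 0 r θ‖ ≤ 2 * s := by
  have h1 : circleMap 0 ρ (θ + h) - circleMap 0 r θ =
      cexp (θ * I) * ((ρ : ℂ) * (cexp (I * h) - 1) + ((ρ - r : ℝ) : ℂ)) := by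
    simp only [circleMap, zero_add]
    have h2 : cexp (((θ + h : ℝ) : ℂ) * I) = cexp (θ * I) * cexp (I * h) := by
      rw [← Complex.exp_add]
      congr 1
      push_cast
      ring
    rw [h2]
    push_cast
    ring
  rw [h1, norm_mul, Complex.norm_exp_ofReal_mul_I, one_mul]
  have h3 : ‖(ρ : ℂ) * (cexp (I * h) - 1)‖ ≤ s := by
    rw [norm_mul, Complex.norm_real, Real.norm_eq_abs, abs_of_nonneg hρ0]
    have h4 : ‖cexp (I * h) - 1‖ ≤ ‖h‖ := Real.norm_exp_I_mul_ofReal_sub_one_le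
    rw [Real.norm_eq_abs] at h4
    have h5 : 0 ≤ ‖cexp (I * h) - 1‖ := norm_nonneg _
    nlinarith
  have h6 : ‖((ρ - r : ℝ) : ℂ)‖ ≤ s := by
    rw [Complex.norm_real, Real.norm_eq_abs, abs_of_nonneg (by linarith)]
    linarith
  calc _ ≤ ‖(ρ : ℂ) * (cexp (I * h) - 1)‖ + ‖((ρ - r : ℝ) : ℂ)‖ := norm_add_le _ _
    _ ≤ 2 * s := by linarith

theorem cSHA (rrb : St_RRB) (har : St_HAR) (poa : St_POA) : St_SHA := by
  intro E hE D t hD hDt θ
  obtain ⟨hk1, hk2⟩ := sha_rho rrb D t hD hDt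
  have hr0 : 0 ≤ rr D := rrb.1 D hD
  have hr1 : rr D < 1 := rrb.2.1 D
  have hρ1 : rr t < 1 := rrb.2.1 t
  set r : ℝ := rr D with hr
  set ρ : ℝ := rr t with hρ
  set s : ℝ := 1 - r with hs
  have hs0 : 0 < s := by linarith
  have hs1 : s ≤ 1 := by linarith
  have hρ0 : 0 < ρ := by linarith
  have hrρ : r < ρ := by linarith
  set w : ℂ := circleMap 0 r θ with hw
  have hwn : ‖w‖ = r := by rw [hw, norm_circleMap_zero, abs_of_nonneg hr0]
  have hwb : w ∈ ball (0 : ℂ) ρ := by rw [mem_ball_zero_iff, hwn]; exact hrρ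
  obtain ⟨hcont, -⟩ := har E hE
  have hp := (poa E hE ρ hρ0 hρ1 w hwb).1
  have hzn : ∀ x : ℝ, ‖circleMap 0 ρ x‖ = ρ := by
    intro x
    rw [norm_circleMap_zero, abs_of_pos hρ0]
  have hzb : ∀ x : ℝ, circleMap 0 ρ x ∈ ball (0 : ℂ) 1 := by
    intro x
    rw [mem_ball_zero_iff, hzn]
    exact hρ1
  have hcz : Continuous fun h : ℝ => circleMap 0 ρ (θ + h) :=
    (continuous_circleMap 0 ρ).comp (continuous_const.add continuous_id)
  have hEz : Continuous fun h : ℝ => E (circleMap 0 ρ (θ + h)) :=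
    hcont.comp_continuous hcz fun h => hzb _
  have hne : ∀ x : ℝ, ‖circleMap 0 ρ x - w‖ ≠ 0 := by
    intro x hx
    rw [norm_eq_zero, sub_eq_zero] at hx
    have h1 := hzn x
    rw [hx, hwn] at h1
    exact hrρ.ne h1
  have hEnn : ∀ x : ℝ, 0 ≤ E (circleMap 0 ρ x) := fun x => hE.1 _ (hzb x)
  set F : ℝ → ℝ := fun h => poissonKernel 0 w (circleMap 0 ρ (θ + h)) *
    E (circleMap 0 ρ (θ + h)) with hF
  have hP : ∀ x : ℝ, poissonKernel 0 w (circleMap 0 ρ x) =
      (ρ ^ 2 - r ^ 2) / ‖circleMap 0 ρ x - w‖ ^ 2 := by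
    intro x
    rw [poissonKernel_def, sub_zero, sub_zero, hzn, hwn]
  have hFc : Continuous F := by
    rw [hF]
    simp_rw [hP]
    apply Continuous.mul _ hEz
    apply continuous_const.div
    · exact (continuous_norm.comp (hcz.sub continuous_const)).pow 2
    · intro h
      exact pow_ne_zero 2 (hne _)
  have hPnn : ∀ x : ℝ, 0 ≤ poissonKernel 0 w (circleMap 0 ρ x) := by
    intro x
    rw [hP]
    apply div_nonneg _ (by positivity)
    nlinarith
  have hFnn : ∀ h, 0 ≤ F h := fun h => mul_nonneg (hPnn _) (hEnn _)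
  have hPI : PI E ρ w = (2 * π)⁻¹ * ∫ h in (-π)..π, F h := by
    unfold PI
    rw [Real.circleAverage_eq_integral_add (θ - π), smul_eq_mul]
    congr 1
    have h1 : ∀ x : ℝ, poissonKernel 0 w (circleMap 0 ρ (x + (θ - π))) *
        E (circleMap 0 ρ (x + (θ - π))) = F (x - π) := by
      intro x
      have h2 : x + (θ - π) = θ + (x - π) := by ring
      rw [h2]
    simp_rw [h1]
    rw [intervalIntegral.integral_comp_sub_right]
    congr 1 <;> ring
  have hpi : s ≤ π := by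
    have := Real.pi_gt_three
    linarith
  have h1 : ∫ h in (-s)..s, F h ≤ ∫ h in (-π)..π, F h := by
    apply intervalIntegral.integral_mono_interval (by linarith) (by linarith) hpi
    · exact Filter.Eventually.of_forall hFnn
    · exact hFc.intervalIntegrable _ _
  have h2 : ∫ h in (-s)..s, (1 / (25 * s) * E (circleMap 0 ρ (θ + h))) ≤ ∫ h in (-s)..s, F h := by
    apply intervalIntegral.integral_mono_on (by linarith)
    · exact (continuous_const.mul hEz).intervalIntegrable _ _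
    · exact hFc.intervalIntegrable _ _
    intro h hh
    apply mul_le_mul_of_nonneg_right _ (hEnn _)
    rw [hP, div_le_div_iff₀ (by positivity) (by have := hne (θ + h); positivity)]
    have h3 := sha_norm ρ r θ h s hrρ.le hρ1.le hρ0.le hs (abs_le.2 hh)
    have h4 : 0 ≤ ‖circleMap 0 ρ (θ + h) - circleMap 0 r θ‖ := norm_nonneg _
    have h5 : ‖circleMap 0 ρ (θ + h) - w‖ ^ 2 ≤ (2 * s) ^ 2 := pow_le_pow_left₀ h4 h3 2
    have h6 : 2 / 5 * s * (2 / 5) ≤ ρ ^ 2 - r ^ 2 := by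
      have h7 : ρ ^ 2 - r ^ 2 = (ρ - r) * (ρ + r) := by ring
      rw [h7]
      apply mul_le_mul hk1 (by linarith) (by norm_num) (by linarith)
    nlinarith
  rw [intervalIntegral.integral_const_mul] at h2
  have h8 : (2 * π)⁻¹ * (1 / (25 * s) * ∫ h in (-s)..s, E (circleMap 0 ρ (θ + h))) ≤ E w := by
    refine le_trans ?_ hp
    rw [hPI]
    exact mul_le_mul_of_nonneg_left (h2.trans h1) (by positivity)
  have h9 : ∫ h in (-s)..s, E (circleMap 0 ρ (θ + h)) ≤ 50 * π * s * E w := by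
    have h10 : ∫ h in (-s)..s, E (circleMap 0 ρ (θ + h)) = 50 * π * s *
        ((2 * π)⁻¹ * (1 / (25 * s) * ∫ h in (-s)..s, E (circleMap 0 ρ (θ + h)))) := by
      have := Real.pi_pos
      field_simp
      ring
    rw [h10]
    exact mul_le_mul_of_nonneg_left h8 (by positivity)
  refine h9.trans ?_
  have hEw : 0 ≤ E w := hE.1 w (by rw [mem_ball_zero_iff, hwn]; exact hr1)
  apply mul_le_mul_of_nonneg_right _ hEw
  have := Real.pi_lt_four
  nlinarith

end Pool.Agent.Helper95.QC
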