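import Pool.Agent.Helper68.QC.St1

/-!
# PART M, module KBH: holomorphic dependence on the torus
-/

set_option autoImplicit false

open MeasureTheory Set Filter Topology Complex
open scoped ContDiff ComplexConjugate ENNReal

namespace Pool.Agent.Helper95.QC

open Pool.Agent.Helper68.QC

/-! ### linearity -/

private lemma ck_add' {f g : ℝ × ℝ → ℂ} (hf : KB.SP f) (hg : KB.SP g) (k : ℤ × ℤ) :
    KB.ck (fun p => f p + g p) k = KB.ck f k + KB.ck g k := by
  unfold KB.ck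
  rw [← KB.mean_add ((KB.ek_sp _).mul hf).continuous ((KB.ek_sp _).mul hg).continuous]
  congr 1
  ext p
  ring

private lemma ck_cmul' (c : ℂ) (f : ℝ × ℝ → ℂ) (k : ℤ × ℤ) :
    KB.ck (fun p => c * f p) k = c * KB.ck f k := by
  unfold KB.ck
  rw [← KB.mean_const_mul]
  congr 1
  ext p
  ring

private lemma bk_add' {f g : ℝ × ℝ → ℂ} (hf : KB.SP f) (hg : KB.SP g) (k : ℤ × ℤ) :
    KB.bk (fun p => f p + g p) k = KB.bk f k + KB.bk g k := by
  unfold KB.bk
  split_ifs with h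
  · simp
  · rw [ck_add' hf hg, add_div]

private lemma bk_cmul' (c : ℂ) (f : ℝ × ℝ → ℂ) (k : ℤ × ℤ) :
    KB.bk (fun p => c * f p) k = c * KB.bk f k := by
  unfold KB.bk
  split_ifs with h
  · simp
  · rw [ck_cmul', mul_div_assoc]

private lemma summ {f : ℝ × ℝ → ℂ} (hf : KB.SP f) (p : ℝ × ℝ) :
    Summable fun k => KB.bk f k * KB.ek k p := by
  refine (KB.summable_bk hf).of_norm_bounded fun k => ?_
  rw [norm_mul, KB.ek_norm, mul_one]

private lemma sol_add {f g : ℝ × ℝ → ℂ} (hf : KB.SP f) (hg : KB.SP g) :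
    KB.Sol (fun p => f p + g p) = fun p => KB.Sol f p + KB.Sol g p := by
  ext p
  unfold KB.Sol
  rw [← (summ hf p).tsum_add (summ hg p)]
  refine tsum_congr fun k => ?_
  rw [bk_add' hf hg]
  ring

private lemma sol_cmul (c : ℂ) (f : ℝ × ℝ → ℂ) :
    KB.Sol (fun p => c * f p) = fun p => c * KB.Sol f p := by
  ext p
  unfold KB.Sol
  rw [← tsum_mul_left]
  refine tsum_congr fun k => ?_
  rw [bk_cmul']
  ring

private lemma sop_add {f g : ℝ × ℝ → ℂ} (hf : KB.SP f) (hg : KB.SP g) :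
    KB.Sop (fun p => f p + g p) = fun p => KB.Sop f p + KB.Sop g p := by
  unfold KB.Sop
  rw [sol_add hf hg, KB.dz_add (KB.Sol_sp hf) (KB.Sol_sp hg)]

private lemma sop_cmul (c : ℂ) {f : ℝ × ℝ → ℂ} (hf : KB.SP f) :
    KB.Sop (fun p => c * f p) = fun p => c * KB.Sop f p := by
  unfold KB.Sop
  rw [sol_cmul, KB.dz_const_mul (KB.Sol_sp hf)]

/-! ### polynomial families -/

/-- Families of smooth periodic functions depending polynomially on the parameter. -/
private inductive Pol : (ℂ → ℝ × ℝ → ℂ) → Prop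
  | const (f : ℝ × ℝ → ℂ) : KB.SP f → Pol (fun _ => f)
  | add (S T : ℂ → ℝ × ℝ → ℂ) : Pol S → Pol T → Pol (fun t p => S t p + T t p)
  | tmul (T : ℂ → ℝ × ℝ → ℂ) : Pol T → Pol (fun t p => t * T t p)

private lemma Pol.sp {T : ℂ → ℝ × ℝ → ℂ} (h : Pol T) (t : ℂ) : KB.SP (T t) := by
  induction h with
  | const f hf => exact hf
  | add S T _ _ h1 h2 => exact h1.add h2
  | tmul T _ h1 => exact h1.const_mul t

private lemma Pol.fmul {T : ℂ → ℝ × ℝ → ℂ} (h : Pol T) {f : ℝ × ℝ → ℂ} (hf : KB.SP f) :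
    Pol (fun t p => f p * T t p) := by
  induction h with
  | const g hg => exact Pol.const _ (hf.mul hg)
  | add S T _ _ h1 h2 =>
    have h3 := Pol.add _ _ h1 h2
    have e : (fun (t : ℂ) (p : ℝ × ℝ) => f p * (S t p + T t p)) =
        fun t p => f p * S t p + f p * T t p := by
      ext t p
      ring
    rw [e]
    exact h3
  | tmul T _ h1 =>
    have h3 := Pol.tmul _ h1
    have e : (fun (t : ℂ) (p : ℝ × ℝ) => f p * (t * T t p)) =
        fun t p => t * (f p * T t p) := by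
      ext t p
      ring
    rw [e]
    exact h3

private lemma Pol.sop {T : ℂ → ℝ × ℝ → ℂ} (h : Pol T) : Pol (fun t => KB.Sop (T t)) := by
  induction h with
  | const g hg => exact Pol.const _ (KB.Sop_sp hg)
  | add S T hS hT h1 h2 =>
    have h3 := Pol.add _ _ h1 h2
    have e : (fun t : ℂ => KB.Sop (fun p => S t p + T t p)) =
        fun t p => KB.Sop (S t) p + KB.Sop (T t) p := by
      ext t p
      rw [sop_add (hS.sp t) (hT.sp t)]
    rw [e]
    exact h3
  | tmul T hT h1 =>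
    have h3 := Pol.tmul _ h1
    have e : (fun t : ℂ => KB.Sop (fun p => t * T t p)) =
        fun t p => t * KB.Sop (T t) p := by
      ext t p
      rw [sop_cmul t (hT.sp t)]
    rw [e]
    exact h3

private lemma Pol.mean {T : ℂ → ℝ × ℝ → ℂ} (h : Pol T) :
    Differentiable ℂ (fun t => KB.mean (T t)) := by
  induction h with
  | const g hg => exact differentiable_const _
  | add S T hS hT h1 h2 =>
    have e : (fun t : ℂ => KB.mean (fun p => S t p + T t p)) =
        fun t => KB.mean (S t) + KB.mean (T t) := by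
      ext t
      rw [KB.mean_add (hS.sp t).continuous (hT.sp t).continuous]
    rw [e]
    exact h1.add h2
  | tmul T hT h1 =>
    have e : (fun t : ℂ => KB.mean (fun p => t * T t p)) = fun t => t * KB.mean (T t) := by
      ext t
      rw [KB.mean_const_mul]
    rw [e]
    exact differentiable_id.mul h1

private lemma Pol.sol {T : ℂ → ℝ × ℝ → ℂ} (h : Pol T) (p : ℝ × ℝ) :
    Differentiable ℂ (fun t => KB.Sol (T t) p) := by
  induction h with
  | const g hg => exact differentiable_const _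
  | add S T hS hT h1 h2 =>
    have e : (fun t : ℂ => KB.Sol (fun p => S t p + T t p) p) =
        fun t => KB.Sol (S t) p + KB.Sol (T t) p := by
      ext t
      rw [sol_add (hS.sp t) (hT.sp t)]
    rw [e]
    exact h1.add h2
  | tmul T hT h1 =>
    have e : (fun t : ℂ => KB.Sol (fun p => t * T t p) p) = fun t => t * KB.Sol (T t) p := by
      ext t
      rw [sol_cmul]
    rw [e]
    exact differentiable_id.mul h1

private lemma pol_m {m₀ m₁ : ℝ × ℝ → ℂ} (h0 : KB.SP m₀) (h1 : KB.SP m₁) :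
    Pol (fun t p => m₀ p + t * m₁ p) :=
  Pol.add _ _ (Pol.const _ h0) (Pol.tmul _ (Pol.const _ h1))

private lemma pol_bT {m₀ m₁ : ℝ × ℝ → ℂ} (h0 : KB.SP m₀) (h1 : KB.SP m₁) (n : ℕ) :
    Pol (fun t => KB.bT (fun p => m₀ p + t * m₁ p) n) := by
  induction n with
  | zero => exact pol_m h0 h1
  | succ n ih =>
    have h2 := Pol.add _ _ (ih.sop.fmul h0) (Pol.tmul _ (ih.sop.fmul h1))
    have e : (fun t : ℂ => KB.bT (fun p => m₀ p + t * m₁ p) (n + 1)) =
        fun t p => m₀ p * KB.Sop (KB.bT (fun p => m₀ p + t * m₁ p) n) p +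
          t * (m₁ p * KB.Sop (KB.bT (fun p => m₀ p + t * m₁ p) n) p) := by
      ext t p
      simp only [KB.bT]
      ring
    rw [e]
    exact h2

/-! ### bounds -/

private lemma Bd.mono : ∀ (s : ℕ) {M M' : ℝ} {f : ℝ × ℝ → ℂ}, Bd s M f → M ≤ M' → Bd s M' f
  | 0, _, _, _, h, hM => fun p => (h p).trans hM
  | s + 1, _, _, _, h, hM => ⟨fun p => (h.1 p).trans hM, Bd.mono s h.2.1 hM, Bd.mono s h.2.2 hM⟩

private lemma exists_bd : ∀ (s : ℕ) {f : ℝ × ℝ → ℂ}, KB.SP f → ∃ M : ℝ, 0 ≤ M ∧ Bd s M f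
  | 0, _, hf => hf.bounded
  | s + 1, f, hf => by
    obtain ⟨M0, h0, h0'⟩ := hf.bounded
    obtain ⟨M1, h1, h1'⟩ := exists_bd s (hf.hD (1, 0))
    obtain ⟨M2, h2, h2'⟩ := exists_bd s (hf.hD (0, 1))
    refine ⟨M0 + M1 + M2, by positivity, fun p => (h0' p).trans (by linarith),
      Bd.mono s h1' (by linarith), Bd.mono s h2' (by linarith)⟩

private lemma bd_comb : ∀ (s : ℕ) {M0 M1 R : ℝ} {f g : ℝ × ℝ → ℂ} {t : ℂ}, KB.SP f → KB.SP g →
    Bd s M0 f → Bd s M1 g → ‖t‖ ≤ R → 0 ≤ M1 → Bd s (M0 + R * M1) (fun p => f p + t * g p)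
  | 0, M0, M1, R, f, g, t, _, _, h0, h1, ht, hM1 => fun p => by
    have h2 := h0 p
    have h3 := h1 p
    have h4 : ‖t * g p‖ ≤ R * M1 := by
      rw [norm_mul]
      exact mul_le_mul ht h3 (norm_nonneg _) ((norm_nonneg _).trans ht)
    exact (norm_add_le _ _).trans (add_le_add h2 h4)
  | s + 1, M0, M1, R, f, g, t, hf, hg, h0, h1, ht, hM1 => by
    have e : ∀ v : ℝ × ℝ, KB.D v (fun p => f p + t * g p) =
        fun p => KB.D v f p + t * KB.D v g p := by
      intro v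
      rw [KB.D_add v hf (hg.const_mul t), KB.D_const_mul v hg]
    refine ⟨fun p => ?_, ?_, ?_⟩
    · have h2 := h0.1 p
      have h3 := h1.1 p
      have h4 : ‖t * g p‖ ≤ R * M1 := by
        rw [norm_mul]
        exact mul_le_mul ht h3 (norm_nonneg _) ((norm_nonneg _).trans ht)
      exact (norm_add_le _ _).trans (add_le_add h2 h4)
    · rw [KB.D1, e]
      exact bd_comb s (hf.hD _) (hg.hD _) h0.2.1 h1.2.1 ht hM1
    · rw [KB.D2, e]
      exact bd_comb s (hf.hD _) (hg.hD _) h0.2.2 h1.2.2 ht hM1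

private lemma key (hPBL : StPBL) {V : Set ℂ} (hV : IsOpen V) (F : ℕ → ℂ → ℂ)
    (hF : ∀ n, Differentiable ℂ (F n)) (a : ℕ → ℂ → ℝ) (ha : ∀ n, ∀ t ∈ V, ‖F n t‖ ≤ a n t)
    (hb : ∀ R : ℝ, ∃ C : ℝ, ∀ t ∈ V, ‖t‖ < R → ∀ m : ℕ, ∑ n ∈ Finset.range m, a n t ≤ C) :
    DifferentiableOn ℂ (fun t => ∑' n, F n t) V := by
  intro t₀ ht₀
  obtain ⟨C, hC⟩ := hb (‖t₀‖ + 1)
  have hW : IsOpen (V ∩ Metric.ball 0 (‖t₀‖ + 1)) := hV.inter Metric.isOpen_ball
  have h1 := hPBL (V ∩ Metric.ball 0 (‖t₀‖ + 1)) C (fun m t => ∑ n ∈ Finset.range m, F n t)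
    (fun t => ∑' n, F n t) hW (fun m => (Differentiable.fun_sum fun n _ => hF n).differentiableOn)
    (fun m t ht => (norm_sum_le _ _).trans ((Finset.sum_le_sum fun n _ => ha n t ht.1).trans
      (hC t ht.1 (by simpa using ht.2) m)))
    (fun t ht => by
      have ha' : Summable fun n => a n t := summable_of_sum_range_le
        (fun n => (norm_nonneg _).trans (ha n t ht.1)) (hC t ht.1 (by simpa using ht.2))
      exact (ha'.of_norm_bounded fun n => ha n t ht.1).hasSum.tendsto_sum_nat)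
  have h2 : t₀ ∈ V ∩ Metric.ball 0 (‖t₀‖ + 1) := ⟨ht₀, by simp⟩
  exact ((h1 t₀ h2).differentiableAt (hW.mem_nhds h2)).differentiableWithinAt

theorem pKBH (hKBU : StKBU) (hPBL : StPBL) : Pool.Agent.Helper68.QC.StKBH := by
  intro k hk0 hk m₀ m₁ V h0 h1 hV hb
  obtain ⟨M0, hM0, hM0'⟩ := exists_bd 4 h0
  obtain ⟨M1, hM1, hM1'⟩ := exists_bd 4 h1
  have hsp : ∀ t : ℂ, KB.SP (fun p => m₀ p + t * m₁ p) := (pol_m h0 h1).sp
  have hT : ∀ (t : ℂ) (n : ℕ), KB.SP (KB.bT (fun p => m₀ p + t * m₁ p) n) := fun t n =>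
    KB.bT_sp (hsp t) n
  have hbound : ∀ R : ℝ, ∃ C : ℝ, ∀ t ∈ V, ‖t‖ < R → ∀ m : ℕ,
      ∑ n ∈ Finset.range m, KB.A 4 (KB.bT (fun p => m₀ p + t * m₁ p) n) ≤ C := by
    intro R
    obtain ⟨C, hC⟩ := hKBU k hk0 hk 4 (M0 + R * M1)
    exact ⟨C, fun t ht hR m => hC _ (hsp t) (hb t ht) (bd_comb 4 h0 h1 hM0' hM1' hR.le hM1) m⟩
  constructor
  · have h2 := key hPBL hV (fun n t => KB.mean (KB.bT (fun p => m₀ p + t * m₁ p) n))
      (fun n => (pol_bT h0 h1 n).mean)
      (fun n t => KB.A 4 (KB.bT (fun p => m₀ p + t * m₁ p) n))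
      (fun n t _ => (KB.norm_mean_le_N (hT t n).continuous).trans (KB.N_le_A 4 _)) hbound
    have e : (fun t : ℂ => KB.kap (fun p => m₀ p + t * m₁ p) 1) =
        fun t => ∑' n, KB.mean (KB.bT (fun p => m₀ p + t * m₁ p) n) := by
      ext t
      unfold KB.kap
      simp
    rw [e]
    exact h2
  · intro p
    have h2 := key hPBL hV (fun n t => KB.Sol (KB.bT (fun p => m₀ p + t * m₁ p) n) p)
      (fun n => (pol_bT h0 h1 n).sol p)
      (fun n t => 4 * KB.W0 * KB.A 4 (KB.bT (fun p => m₀ p + t * m₁ p) n))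
      (fun n t _ => KB.norm_Sol_le (hT t n) p) (by
        intro R
        obtain ⟨C, hC⟩ := hbound R
        refine ⟨4 * KB.W0 * C, fun t ht hR m => ?_⟩
        rw [← Finset.mul_sum]
        exact mul_le_mul_of_nonneg_left (hC t ht hR m) (by have := KB.W0_nonneg; positivity))
    have e : (fun t : ℂ => KB.PS (KB.bT (fun p => m₀ p + t * m₁ p)) 1 p) =
        fun t => ∑' n, KB.Sol (KB.bT (fun p => m₀ p + t * m₁ p) n) p := by
      ext t
      unfold KB.PS
      simp
    rw [e]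
    exact h2

end Pool.Agent.Helper95.QC
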