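import Pool.Agent.Helper68.QC.St1

/-!
# PART M, module KBS: the explicit solution on the torus
-/

set_option autoImplicit false

open MeasureTheory Set Filter Topology Complex
open scoped ContDiff ComplexConjugate ENNReal

namespace Pool.Agent.Helper95.QC

theorem pKBS : Pool.Agent.Helper68.QC.StKBS := by
  intro k hk0 hk μ hμ hb
  have hF := KB.bT_fam hμ hk0 hk hb
  have hsp : KB.SP (KB.PS (KB.bT μ) 1) := KB.PS_sp hF zero_le_one le_rfl
  have heq : ∀ p, KB.kap μ 1 + KB.dzb (KB.PS (KB.bT μ) 1) p =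
      μ p * (1 + KB.dz (KB.PS (KB.bT μ) 1) p) := by
    intro p
    have h := KB.bel1 hμ hk0 hk hb zero_le_one le_rfl p
    rw [Complex.ofReal_one, one_mul] at h
    exact h
  set Φ := KB.PS (KB.bT μ) 1 with hΦ
  set κ := KB.kap μ 1 with hκ
  refine ⟨hsp, heq, ?_, ?_⟩
  · obtain ⟨κ', Φ', h1, h2, h3⟩ := KB.beltrami hμ hk0 hk hb
    have hr : KB.SP (fun p => Φ p - Φ' p) := hsp.sub h1
    have h4 := (KB.uniq hk0 hk hr hμ hb (c := κ - κ') (by
      intro p
      rw [KB.dzb_sub hsp h1, KB.dz_sub hsp h1]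
      simp only
      linear_combination heq p - h2 p)).2
    intro p hp
    apply h3 p
    have h5 := h4 p
    rw [KB.dz_sub hsp h1] at h5
    simp only at h5
    linear_combination hp - h5
  · have e1 := KB.N_sq_const_add hsp.hdzb.continuous (KB.mean_dzb hsp) κ
    have e2 := KB.N_sq_const_add hsp.hdz.continuous (KB.mean_dz hsp) 1
    have e3 : (fun p => κ + KB.dzb Φ p) = fun p => μ p * (1 + KB.dz Φ p) := funext heq
    have hc : Continuous fun p => 1 + KB.dz Φ p := continuous_const.add hsp.hdz.continuous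
    have h1 := KB.N_mul_le hc hμ.continuous hk0 hb
    rw [← e3] at h1
    have h2 := pow_le_pow_left₀ (KB.N_nonneg _) h1 2
    rw [mul_pow, e1, e2, ← KB.N_dz hsp, norm_one] at h2
    have h3 : ‖κ‖ ^ 2 ≤ k ^ 2 := by
      have h4 : k ^ 2 ≤ 1 := by nlinarith
      have h5 := sq_nonneg (KB.N (KB.dz Φ))
      nlinarith
    exact le_of_sq_le_sq h3 hk0

end Pool.Agent.Helper95.QC
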