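import Pool.Agent.Helper69.QC.St

/-!
# Project QD, part C: common lemmas for the modules NMA and NMB
-/

set_option autoImplicit false

open Set Filter Topology

namespace Pool.Agent.Helper95.QC

open Pool.Agent.Helper69.QC

theorem seq_avg (nmw : St_NMW) (V f : ℕ → ℝ) (C1 e : ℝ) (S T : ℕ) (hC1 : 0 ≤ C1)
    (hf : ∀ j, 0 ≤ f j) (hV : Antitone V) (hS : 1 ≤ S) (hST : 2 * S ≤ T)
    (h : ∀ t, S ≤ t → V t ≤ C1 * ∑ j ∈ Finset.Ico (t - S) t, f j + e) :
    V (2 * T) ≤ 2 / T * C1 * S * ∑ j ∈ Finset.Ico T (2 * T), f j + e := by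
  have hT : 0 < T := by omega
  have hT' : (0 : ℝ) < T := by exact_mod_cast hT
  set F : ℝ := ∑ j ∈ Finset.Ico T (2 * T), f j with hF
  have hF0 : 0 ≤ F := Finset.sum_nonneg fun j _ => hf j
  have h1 : ∑ t ∈ Finset.Ioc (T + S) (2 * T), V (2 * T) ≤
      ∑ t ∈ Finset.Ioc (T + S) (2 * T), (C1 * ∑ j ∈ Finset.Ico (t - S) t, f j + e) := by
    apply Finset.sum_le_sum
    intro t ht
    rw [Finset.mem_Ioc] at ht
    exact (hV ht.2).trans (h t (by omega))
  rw [Finset.sum_add_distrib, ← Finset.mul_sum, Finset.sum_const, Finset.sum_const,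
    Nat.card_Ioc, nsmul_eq_mul, nsmul_eq_mul] at h1
  have h2 := nmw f S T hf (by omega)
  have h3 : C1 * ∑ t ∈ Finset.Ioc (T + S) (2 * T), ∑ j ∈ Finset.Ico (t - S) t, f j ≤
      C1 * (S * F) := mul_le_mul_of_nonneg_left h2 hC1
  have hc : ((2 * T - (T + S) : ℕ) : ℝ) = (T : ℝ) - S := by
    have : 2 * T - (T + S) = T - S := by omega
    rw [this, Nat.cast_sub (by omega)]
  rw [hc] at h1
  have h4 : (2 : ℝ) * S ≤ T := by exact_mod_cast hST
  have h5 : (V (2 * T) - e) * T ≤ 2 * (C1 * (S * F)) := by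
    rcases le_total (V (2 * T) - e) 0 with h6 | h6
    · have h7 : (V (2 * T) - e) * T ≤ 0 := mul_nonpos_of_nonpos_of_nonneg h6 hT'.le
      have h8 : 0 ≤ 2 * (C1 * (S * F)) := by positivity
      linarith
    · nlinarith
  have h9 : V (2 * T) - e ≤ 2 * (C1 * (S * F)) / T := by
    rw [le_div_iff₀ hT']
    exact h5
  have h10 : 2 * (C1 * (S * F)) / T = 2 / T * C1 * S * F := by ring
  rw [h10] at h9
  linarith

theorem seq_tel (M : ℕ → ℝ) (hM : Antitone M) (h0 : ∀ j, 0 ≤ M j) (R T n : ℕ) :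
    ∑ j ∈ Finset.Ico T (T + n), (M j - M (j + R)) ≤ R * M T := by
  have h1 : ∀ n : ℕ, ∑ j ∈ Finset.Ico T (T + n), (M j - M (j + R)) =
      ∑ j ∈ Finset.range R, M (T + j) - ∑ j ∈ Finset.range R, M (T + n + j) := by
    intro n
    induction n with
    | zero => simp
    | succ n ih =>
      rw [← add_assoc, Finset.sum_Ico_succ_top (by omega), ih]
      have h2 : ∑ j ∈ Finset.range R, M (T + n + j) + M (T + n + R) =
          ∑ j ∈ Finset.range R, M (T + n + 1 + j) + M (T + n) := by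
        have h3 := Finset.sum_range_succ (fun j => M (T + n + j)) R
        have h4 := Finset.sum_range_succ' (fun j => M (T + n + j)) R
        rw [h3] at h4
        rw [h4]
        congr 1
        apply Finset.sum_congr rfl
        intro j _
        congr 1
        omega
      linarith
  rw [h1]
  have h2 : 0 ≤ ∑ j ∈ Finset.range R, M (T + n + j) := Finset.sum_nonneg fun j _ => h0 _
  have h3 : ∑ j ∈ Finset.range R, M (T + j) ≤ ∑ _j ∈ Finset.range R, M T :=
    Finset.sum_le_sum fun j _ => hM (by omega)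
  rw [Finset.sum_const, Finset.card_range, nsmul_eq_mul] at h3
  linarith

theorem seq_Q (M Q : ℕ → ℝ) (hM : Antitone M) (h0 : ∀ j, 0 ≤ M j) (c : ℝ) (hc : 0 < c) (R T : ℕ)
    (hQ : ∀ j, c * Q j ≤ M j - M (j + R)) :
    ∑ j ∈ Finset.Ico T (2 * T), Q j ≤ R / c * M T := by
  have h1 := seq_tel M hM h0 R T T
  have h2 : c * ∑ j ∈ Finset.Ico T (2 * T), Q j ≤ R * M T := by
    rw [Finset.mul_sum, two_mul]
    exact (Finset.sum_le_sum fun j _ => hQ j).trans h1
  rw [div_mul_eq_mul_div, le_div_iff₀ hc]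
  linarith

theorem seq_exp (k : ℕ) : Real.exp (-((4 * (k + 1) : ℕ) : ℝ) / 2) ≤ 1 / 4 ^ (k + 1) := by
  have h1 : (4 : ℝ) ≤ Real.exp 2 := by
    have h2 : (2 : ℝ) ≤ Real.exp 1 := by
      have := Real.add_one_le_exp (1 : ℝ)
      linarith
    have h3 : Real.exp 2 = Real.exp 1 * Real.exp 1 := by
      rw [← Real.exp_add]
      norm_num
    rw [h3]
    nlinarith
  have h4 : -((4 * (k + 1) : ℕ) : ℝ) / 2 = -(((k + 1 : ℕ) : ℝ) * 2) := by
    push_cast
    ring
  rw [h4, Real.exp_neg, Real.exp_nat_mul, ← one_div]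
  apply one_div_le_one_div_of_le (by positivity)
  exact pow_le_pow_left₀ (by norm_num) h1 _

theorem seq_pow (k : ℕ) (hk : 6 ≤ k) : 2 * (4 * (k + 1)) ≤ 2 ^ k := by
  induction k, hk using Nat.le_induction with
  | base => norm_num
  | succ n hn ih =>
    rw [pow_succ]
    omega

end Pool.Agent.Helper95.QC
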